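import Pool.Agent.N641.VB.Stm2

set_option autoImplicit false

/-!
# Project VB (helper641), part CHI (helper265): types are first-order definable
-/

namespace Pool.Agent.N265.VB

open FirstOrder FirstOrder.Language
open Pool.Agent.N641.VB

/-- uniform predicates on tuples indexed by `α` -/
abbrev UQ (M : Type) (α : Type) : Type 1 :=
  ∀ (A : Type) [BooleanAlgebra A], (A → M) → (α → A) → Prop

/-- uniformly definable predicates -/
def UD {M α : Type} (Q : UQ M α) : Prop :=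
  ∃ χ : (LM M).Formula α, ∀ (A : Type) [BooleanAlgebra A] (mu : A → M) (v : α → A),
    @Formula.Realize (LM M) A (str (· ≤ ·) mu) _ χ v ↔ Q A mu v

theorem ud_congr {M α : Type} {Q Q' : UQ M α} (h : UD Q)
    (hQ : ∀ (A : Type) [BooleanAlgebra A] (mu : A → M) (v : α → A), Q A mu v ↔ Q' A mu v) :
    UD Q' := by
  obtain ⟨χ, hχ⟩ := h
  exact ⟨χ, fun A _ mu v => (hχ A mu v).trans (hQ A mu v)⟩

theorem ud_not {M α : Type} {Q : UQ M α} (h : UD Q) : UD (fun A _ mu v => ¬ Q A mu v) := by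
  obtain ⟨χ, hχ⟩ := h
  refine ⟨χ.not, fun A _ mu v => ?_⟩
  let _ := str (A := A) (· ≤ ·) mu
  rw [Formula.realize_not, hχ]

theorem ud_and {M α : Type} {Q Q' : UQ M α} (h : UD Q) (h' : UD Q') :
    UD (fun A _ mu v => Q A mu v ∧ Q' A mu v) := by
  obtain ⟨χ, hχ⟩ := h
  obtain ⟨χ', hχ'⟩ := h'
  refine ⟨χ ⊓ χ', fun A _ mu v => ?_⟩
  let _ := str (A := A) (· ≤ ·) mu
  rw [Formula.realize_inf, hχ, hχ']

theorem ud_imp {M α : Type} {Q Q' : UQ M α} (h : UD Q) (h' : UD Q') :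
    UD (fun A _ mu v => Q A mu v → Q' A mu v) := by
  obtain ⟨χ, hχ⟩ := h
  obtain ⟨χ', hχ'⟩ := h'
  refine ⟨χ.imp χ', fun A _ mu v => ?_⟩
  let _ := str (A := A) (· ≤ ·) mu
  rw [Formula.realize_imp, hχ, hχ']

theorem ud_forall {M α : Type} {ι : Type} [Finite ι] {Q : ι → UQ M α} (h : ∀ i, UD (Q i)) :
    UD (fun A _ mu v => ∀ i, Q i A mu v) := by
  choose χ hχ using h
  refine ⟨Formula.iInf χ, fun A _ mu v => ?_⟩
  let _ := str (A := A) (· ≤ ·) mu
  rw [Formula.realize_iInf]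
  exact forall_congr' fun i => hχ i A mu v

theorem ud_sub {M α β : Type} {Q : UQ M α} (h : UD Q) (g : α → β) :
    UD (fun A _ mu (v : β → A) => Q A mu (v ∘ g)) := by
  obtain ⟨χ, hχ⟩ := h
  refine ⟨χ.relabel g, fun A _ mu v => ?_⟩
  let _ := str (A := A) (· ≤ ·) mu
  rw [Formula.realize_relabel, hχ]

theorem ud_all {M α : Type} {Q : UQ M (α ⊕ Fin 1)} (h : UD Q) :
    UD (fun A _ mu (v : α → A) => ∀ b : A, Q A mu (Sum.elim v fun _ => b)) := by
  obtain ⟨χ, hχ⟩ := h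
  refine ⟨χ.iAlls (Fin 1), fun A _ mu v => ?_⟩
  let _ := str (A := A) (· ≤ ·) mu
  rw [Formula.realize_iAlls]
  constructor
  · intro h1 b
    exact (hχ A mu _).1 (h1 fun _ => b)
  · intro h1 i
    have h2 := (hχ A mu _).2 (h1 (i 0))
    have h3 : (fun _ => i 0) = i := funext fun j => by rw [Subsingleton.elim j 0]
    rwa [h3] at h2

theorem ud_ex {M α : Type} {Q : UQ M (α ⊕ Fin 1)} (h : UD Q) :
    UD (fun A _ mu (v : α → A) => ∃ b : A, Q A mu (Sum.elim v fun _ => b)) := by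
  refine ud_congr (ud_not (ud_all (ud_not h))) fun A _ mu v => ?_
  push Not
  rfl

theorem ud_le {M α : Type} (i j : α) : UD (M := M) (fun _ _ _ (v : α → _) => v i ≤ v j) := by
  refine ⟨Relations.formula₂ (L := LM M) (Sym.le : (LM M).Relations 2)
    (Term.var i) (Term.var j), fun A _ mu v => ?_⟩
  let _ := str (A := A) (· ≤ ·) mu
  rw [Formula.realize_rel₂]
  rfl

theorem ud_val {M α : Type} (i : α) (x : M) :
    UD (fun _ _ mu (v : α → _) => mu (v i) = x) := by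
  refine ⟨Relations.formula₁ (L := LM M) (Sym.val x : (LM M).Relations 1)
    (Term.var i), fun A _ mu v => ?_⟩
  let _ := str (A := A) (· ≤ ·) mu
  rw [Formula.realize_rel₁]
  rfl

theorem ud_const {M α : Type} [Inhabited α] (p : Prop) : UD (M := M) (α := α) (fun _ _ _ _ => p) := by
  by_cases hp : p
  · refine ud_congr (ud_le default default) fun A _ mu v => ?_
    simp [hp]
  · refine ud_congr (ud_not (ud_le default default)) fun A _ mu v => ?_
    simp [hp]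

theorem dif_iff {A : Type} [BooleanAlgebra A] (a b c : A) :
    ((b ≤ a ∧ c ≤ a) ∧ (∀ d, d ≤ b → d ≤ c → ∀ e, d ≤ e) ∧ ∀ d, b ≤ d → c ≤ d → a ≤ d) ↔
      b ≤ a ∧ c = a \ b := by
  constructor
  · rintro ⟨⟨h1, h2⟩, h3, h4⟩
    refine ⟨h1, le_antisymm ?_ ?_⟩
    · rw [le_sdiff]
      refine ⟨h2, ?_⟩
      rw [disjoint_iff_inf_le]
      exact h3 _ inf_le_right inf_le_left _
    · rw [sdiff_le_iff]
      exact h4 _ le_sup_left le_sup_right
  · rintro ⟨h1, rfl⟩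
    refine ⟨⟨h1, sdiff_le⟩, fun d h2 h3 e => ?_, fun d h2 h3 => ?_⟩
    · have h4 : d ≤ b ⊓ (a \ b) := le_inf h2 h3
      rw [inf_sdiff_self_right] at h4
      exact h4.trans bot_le
    · have h4 : b ⊔ (a \ b) ≤ d := sup_le h2 h3
      rw [sup_sdiff_cancel_right h1] at h4
      exact h4

theorem ud_dif {M : Type} : UD (M := M) (α := Fin 3) (fun _ _ _ v => v 1 ≤ v 0 ∧ v 2 = v 0 \ v 1) := by
  have h1 : UD (M := M) (α := Fin 3) (fun A _ _ v => ∀ d, d ≤ v 1 → d ≤ v 2 → ∀ e : A, d ≤ e) :=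
    ud_all (Q := fun A _ _ w => w (Sum.inr 0) ≤ w (Sum.inl 1) → w (Sum.inr 0) ≤ w (Sum.inl 2) →
      ∀ e : A, w (Sum.inr 0) ≤ e)
      (ud_imp (ud_le _ _) (ud_imp (ud_le _ _)
        (ud_all (Q := fun A _ _ w => w (Sum.inl (Sum.inr 0)) ≤ w (Sum.inr 0)) (ud_le _ _))))
  have h2 : UD (M := M) (α := Fin 3) (fun A _ _ v => ∀ d, v 1 ≤ d → v 2 ≤ d → v 0 ≤ d) :=
    ud_all (Q := fun A _ _ w => w (Sum.inl 1) ≤ w (Sum.inr 0) → w (Sum.inl 2) ≤ w (Sum.inr 0) →
      w (Sum.inl 0) ≤ w (Sum.inr 0))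
      (ud_imp (ud_le _ _) (ud_imp (ud_le _ _) (ud_le _ _)))
  exact ud_congr (ud_and (ud_and (ud_le 1 0) (ud_le 2 0)) (ud_and h1 h2))
    fun A _ mu v => dif_iff (v 0) (v 1) (v 2)

theorem tp_fin (M : Type) [Finite M] : ∀ k : ℕ, Finite (TP M k)
  | 0 => inferInstanceAs (Finite Prop)
  | k + 1 => by
    have := tp_fin M k
    exact inferInstanceAs (Finite (M × Set (TP M k × TP M k)))

theorem ud_tp (M : Type) [Finite M] : ∀ (k : ℕ) (σ : TP M k),
    UD (M := M) (α := Fin 1) (fun _ _ mu v => tp mu k (v 0) = σ)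
  | 0, σ => by
    have h1 : UD (M := M) (α := Fin 1) (fun A _ _ v => ∀ b : A, v 0 ≤ b) :=
      ud_all (Q := fun A _ _ w => w (Sum.inl 0) ≤ w (Sum.inr 0)) (ud_le _ _)
    have h2 : ∀ (A : Type) [BooleanAlgebra A] (a : A), (∀ b : A, a ≤ b) ↔ a = ⊥ := by
      intro A _ a
      exact ⟨fun h => le_bot_iff.1 (h ⊥), fun h b => by rw [h]; exact bot_le⟩
    rcases Classical.propComplete σ with hσ | hσ
    · refine ud_congr h1 fun A _ mu v => ?_
      rw [h2, hσ]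
      exact ⟨fun h => eq_true h, fun h => of_eq_true h⟩
    · refine ud_congr (ud_not h1) fun A _ mu v => ?_
      rw [h2, hσ]
      exact ⟨fun h => eq_false h, fun h => of_eq_false h⟩
  | k + 1, σ => by
    obtain ⟨x, Q⟩ := σ
    have hE : ∀ q : TP M k × TP M k, UD (M := M) (α := Fin 1)
        (fun A _ mu v => ∃ b c : A, (b ≤ v 0 ∧ c = v 0 \ b) ∧ tp mu k b = q.1 ∧
          tp mu k c = q.2) := by
      intro q
      refine ud_ex (Q := fun A _ mu w => ∃ c : A, (w (Sum.inr 0) ≤ w (Sum.inl 0) ∧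
        c = w (Sum.inl 0) \ w (Sum.inr 0)) ∧ tp mu k (w (Sum.inr 0)) = q.1 ∧
          tp mu k c = q.2) ?_
      refine ud_ex (Q := fun A _ mu w => (w (Sum.inl (Sum.inr 0)) ≤ w (Sum.inl (Sum.inl 0)) ∧
        w (Sum.inr 0) = w (Sum.inl (Sum.inl 0)) \ w (Sum.inl (Sum.inr 0))) ∧
          tp mu k (w (Sum.inl (Sum.inr 0))) = q.1 ∧ tp mu k (w (Sum.inr 0)) = q.2) ?_
      refine ud_and ?_ (ud_and ?_ ?_)
      · exact ud_sub ud_dif ![Sum.inl (Sum.inl 0), Sum.inl (Sum.inr 0), Sum.inr 0]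
      · exact ud_sub (ud_tp M k q.1) fun _ => Sum.inl (Sum.inr 0)
      · exact ud_sub (ud_tp M k q.2) fun _ => Sum.inr 0
    have hF : ∀ q : TP M k × TP M k, UD (M := M) (α := Fin 1)
        (fun A _ mu v => (∃ b ≤ v 0, q = (tp mu k b, tp mu k (v 0 \ b))) ↔ q ∈ Q) := by
      intro q
      have h1 : UD (M := M) (α := Fin 1)
          (fun A _ mu v => ∃ b ≤ v 0, q = (tp mu k b, tp mu k (v 0 \ b))) := by
        refine ud_congr (hE q) fun A _ mu v => ?_
        constructor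
        · rintro ⟨b, c, ⟨h1, rfl⟩, h3, h4⟩
          exact ⟨b, h1, Prod.ext h3.symm h4.symm⟩
        · rintro ⟨b, h1, rfl⟩
          exact ⟨b, _, ⟨h1, rfl⟩, rfl, rfl⟩
      by_cases hq : q ∈ Q
      · refine ud_congr h1 fun A _ mu v => ?_
        simp [hq]
      · refine ud_congr (ud_not h1) fun A _ mu v => ?_
        simp [hq]
    have : Finite (TP M k) := tp_fin M k
    refine ud_congr (ud_and (ud_val 0 x) (ud_forall hF)) fun A _ mu v => ?_
    constructor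
    · rintro ⟨h1, h2⟩
      exact Prod.ext h1 (Set.ext h2)
    · intro h
      have h1 : mu (v 0) = x := congrArg Prod.fst h
      have h2 : {q | ∃ b ≤ v 0, q = (tp mu k b, tp mu k (v 0 \ b))} = Q := congrArg Prod.snd h
      exact ⟨h1, fun q => Set.ext_iff.1 h2 q⟩

theorem CHI : S_CHI := by
  intro M _ k σ
  obtain ⟨χ, hχ⟩ := ud_tp M k σ
  exact ⟨χ, fun A _ mu a => hχ A mu fun _ => a⟩

end Pool.Agent.N265.VB
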